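import Pool.Agent.Work.MP_8491f2_lc.Fin2

/-!
If the Exponential Time Hypothesis holds, then no algorithm computes the pathwidth of every graph
`G` in time `f(tw(G)) n^c`, or only in time `f(tw(G)) n^{o(tw(G))}`, for whatever function `f`.
-/

set_option autoImplicit false

namespace Pool.Agent.Results.MP_8491f2_lc.NotFPTUnlessETH

open Filter Topology

/-! ### Treewidth and pathwidth -/

/-- `(T, B)` is a tree decomposition of the graph `G`: `T` is a tree, every edge of `G` lies in
some bag, and for every vertex `v` of `G` the nodes whose bags contain `v` induce a connected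
(in particular nonempty) subgraph of `T`. -/
structure IsTreeDecomposition {V X : Type} (G : SimpleGraph V) (T : SimpleGraph X)
    (B : X → Finset V) : Prop where
  isTree : T.IsTree
  edge : ∀ u v, G.Adj u v → ∃ x, u ∈ B x ∧ v ∈ B x
  conn : ∀ v, (T.induce {x | v ∈ B x}).Connected

/-- The treewidth of `G`: the least `k` such that `G` has a tree decomposition (over a finite tree)
all of whose bags have at most `k + 1` elements. -/
noncomputable def treewidth {V : Type} (G : SimpleGraph V) : ℕ :=
  sInf {k | ∃ (X : Type) (_ : Finite X) (T : SimpleGraph X) (B : X → Finset V),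
    IsTreeDecomposition G T B ∧ ∀ x, (B x).card ≤ k + 1}

/-- The pathwidth of `G`: the least `k` such that `G` has a tree decomposition over a path all of
whose bags have at most `k + 1` elements. -/
noncomputable def pathwidth {V : Type} (G : SimpleGraph V) : ℕ :=
  sInf {k | ∃ (m : ℕ) (B : Fin m → Finset V),
    IsTreeDecomposition G (SimpleGraph.pathGraph m) B ∧ ∀ x, (B x).card ≤ k + 1}

/-! ### Machines and inputs -/

/-- The multi-stack Turing machine `M` (its input and output alphabets are identified with
`Bool`), started with the word `x`, halts with output `y` after at most `t` steps. -/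
def OutputsIn (M : Turing.TM2ComputableAux Bool Bool) (x y : List Bool) (t : ℕ) : Prop :=
  Nonempty (Turing.TM2OutputsInTime M.tm (List.map M.inputAlphabet.invFun x)
    (some (List.map M.outputAlphabet.invFun y)) t)

open Classical in
/-- The word of a graph with vertices `0, ..., n - 1`: the number `n` in unary, a zero, and the
adjacency matrix, row by row. -/
noncomputable def graphWord {n : ℕ} (G : SimpleGraph (Fin n)) : List Bool :=
  List.replicate n true ++ false ::
    (List.finRange n).flatMap fun i => (List.finRange n).map fun j => decide (G.Adj i j)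

/-- Some machine computes `pw(G)` (in unary) for every graph `G` on `n` vertices in time
`t n G`. -/
def PathwidthInTime (t : (n : ℕ) → SimpleGraph (Fin n) → ℕ) : Prop :=
  ∃ M : Turing.TM2ComputableAux Bool Bool, ∀ (n : ℕ) (G : SimpleGraph (Fin n)),
    OutputsIn M (graphWord G) (List.replicate (pathwidth G) true) (t n G)

/-- Pathwidth can be computed in time `f(tw(G)) (n + 1)^c`, for some function `f` (computable or
not) and some constant `c`. -/
def PathwidthIsFPT : Prop :=
  ∃ (f : ℕ → ℕ) (c : ℕ), PathwidthInTime fun n G => f (treewidth G) * (n + 1) ^ c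

/-! ### 3-SAT -/

/-- Literals: `(x, true)` is the variable `x`, `(x, false)` its negation. -/
abbrev Literal : Type := ℕ × Bool

/-- Clauses with three literals. -/
abbrev Clause : Type := Literal × Literal × Literal

/-- The literal `l` is true under the assignment `v`. -/
def IsTrue (v : ℕ → Bool) (l : Literal) : Prop := v l.1 = l.2

/-- The 3-CNF formula `φ` is satisfiable. -/
def Satisfiable (φ : List Clause) : Prop :=
  ∃ v : ℕ → Bool, ∀ c ∈ φ, IsTrue v c.1 ∨ IsTrue v c.2.1 ∨ IsTrue v c.2.2

/-- The variables of `φ` are among `0, ..., n - 1`. -/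
def VarsBelow (n : ℕ) (φ : List Clause) : Prop :=
  ∀ c ∈ φ, c.1.1 < n ∧ c.2.1.1 < n ∧ c.2.2.1 < n

/-- A number is written in unary, `n` as `1010...100`. -/
def numWord : ℕ → List Bool
  | 0 => [false]
  | n + 1 => true :: false :: numWord n

/-- The word of a literal: a one, the number of its variable, its sign (`0` or `100`). -/
def literalWord (l : Literal) : List Bool :=
  true :: (numWord l.1 ++ (if l.2 then [true, false, false] else [false]))

/-- The word of a clause. -/
def clauseWord (c : Clause) : List Bool :=
  true :: (literalWord c.1 ++ true :: (literalWord c.2.1 ++ literalWord c.2.2))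

/-- The word of a list of clauses: a one before every clause and a zero at the end. -/
def clausesWord : List Clause → List Bool
  | [] => [false]
  | c :: l => true :: (clauseWord c ++ clausesWord l)

/-- The word of a 3-CNF formula with variables `0, ..., n - 1`. -/
def formulaWord (n : ℕ) (φ : List Clause) : List Bool := true :: (numWord n ++ clausesWord φ)

open Classical in
/-- Some machine decides 3-SAT with `n` variables and `m` clauses in time `t n m`. -/
def ThreeSatInTime (t : ℕ → ℕ → ℝ) : Prop :=
  ∃ M : Turing.TM2ComputableAux Bool Bool, ∀ (n : ℕ) (φ : List Clause), VarsBelow n φ →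
    OutputsIn M (formulaWord n φ) [decide (Satisfiable φ)] ⌊t n φ.length⌋₊

/-- The Exponential Time Hypothesis: for some `δ > 0`, 3-SAT with `n` variables and `m` clauses
cannot be decided in time `c 2^{δ n} (m + 1)^d`, whatever the constants `c` and `d`. -/
def ExponentialTimeHypothesis : Prop :=
  ∃ δ : ℝ, 0 < δ ∧ ∀ (c : ℝ) (d : ℕ),
    ¬ ThreeSatInTime fun n m => c * 2 ^ (δ * n) * ((m : ℝ) + 1) ^ d

/-! ### The proof -/

theorem dec_iff {V X : Type} (G : SimpleGraph V) (T : SimpleGraph X) (B : X → Finset V) :
    Work.MP_8491f2_lc.IsTreeDec G T B ↔ IsTreeDecomposition G T B :=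
  ⟨fun h => ⟨h.1, h.2, h.3⟩, fun h => ⟨h.1, h.2, h.3⟩⟩

theorem tw_eq {V : Type} (G : SimpleGraph V) : Work.MP_8491f2_lc.tw G = treewidth G := by
  unfold Work.MP_8491f2_lc.tw treewidth Work.MP_8491f2_lc.TwLe
  simp only [dec_iff]

theorem pw_eq {V : Type} (G : SimpleGraph V) : Work.MP_8491f2_lc.pw G = pathwidth G := by
  unfold Work.MP_8491f2_lc.pw pathwidth Work.MP_8491f2_lc.PwLe
  simp only [dec_iff]

theorem numWord_eq (n : ℕ) : Work.MP_8491f2_lc.encNum n = numWord n := by
  induction n with
  | zero => rfl
  | succ n ih => simp only [Work.MP_8491f2_lc.encNum, numWord, ih]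

theorem literalWord_eq (l : Literal) : Work.MP_8491f2_lc.encLit l = literalWord l := by
  simp only [Work.MP_8491f2_lc.encLit, literalWord, numWord_eq]

theorem clauseWord_eq (c : Clause) : Work.MP_8491f2_lc.encClause c = clauseWord c := by
  simp only [Work.MP_8491f2_lc.encClause, clauseWord, literalWord_eq]

theorem clausesWord_eq (φ : List Clause) :
    Work.MP_8491f2_lc.encClauses φ = clausesWord φ := by
  induction φ with
  | nil => rfl
  | cons c φ ih => simp only [Work.MP_8491f2_lc.encClauses, clausesWord, clauseWord_eq, ih]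

theorem formulaWord_eq (n : ℕ) (φ : List Clause) :
    Work.MP_8491f2_lc.enc3 n φ = formulaWord n φ := by
  simp only [Work.MP_8491f2_lc.enc3, formulaWord, numWord_eq, clausesWord_eq]

theorem sat_iff (φ : List Clause) : Work.MP_8491f2_lc.Sat3 φ ↔ Satisfiable φ := by
  unfold Work.MP_8491f2_lc.Sat3 Satisfiable
  simp only [Work.MP_8491f2_lc.Lit.val, beq_iff_eq, IsTrue]

theorem general (f g : ℕ → ℕ) (hg : Tendsto (fun k : ℕ => (g k : ℝ) / k) atTop (𝓝 0))
    (h : PathwidthInTime fun n G => f (treewidth G) * (n + 1) ^ g (treewidth G)) :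
    ¬ ExponentialTimeHypothesis := by
  rintro ⟨δ, hδ, hE⟩
  obtain ⟨M, hM⟩ := h
  obtain ⟨M', c, d, hM'⟩ := Work.MP_8491f2_lc.main2 f g hg M (fun n G => by
    rw [tw_eq, pw_eq]
    exact hM n G) δ hδ
  refine hE c d ⟨M', fun n φ hφ => ?_⟩
  have h1 := hM' n φ hφ
  rw [formulaWord_eq] at h1
  have h2 : (@decide (Work.MP_8491f2_lc.Sat3 φ) (Classical.propDecidable _)) =
      (@decide (Satisfiable φ) (Classical.propDecidable _)) := by
    rw [decide_eq_decide]
    exact sat_iff φ
  rw [h2] at h1
  exact h1

/-- **Pathwidth parameterized by treewidth is not fixed-parameter tractable unless the Exponential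
Time Hypothesis fails.** If pathwidth can be computed in time `f(tw(G)) (n + 1)^c` for some `f` and
`c`, or only in time `f(tw(G)) (n + 1)^{g(tw(G))}` for some `f` and some `g` with `g(k) = o(k)`,
then the Exponential Time Hypothesis fails. -/
theorem result :
    (PathwidthIsFPT → ¬ ExponentialTimeHypothesis) ∧
    (∀ f g : ℕ → ℕ, Tendsto (fun k : ℕ => (g k : ℝ) / k) atTop (𝓝 0) →
      (PathwidthInTime fun n G => f (treewidth G) * (n + 1) ^ g (treewidth G)) →
      ¬ ExponentialTimeHypothesis) := by
  refine ⟨fun ⟨f, c, h⟩ => general f (fun _ => c) ?_ h, fun f g hg h => general f g hg h⟩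
  exact tendsto_const_div_atTop_nhds_zero_nat (c : ℝ)

end Pool.Agent.Results.MP_8491f2_lc.NotFPTUnlessETH
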