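import Pool.Agent.Work.MP_8491f2_lc.DP.Main
import Pool.Agent.Work.MP_8491f2_lc.DP.CountB
import Pool.Agent.Work.MP_8491f2_lc.DP.Bag

/-!
Unconditional: dynamic programming over tree decompositions (with tables, automata or linear
algebra) does not decide pathwidth with `f(tw) n^c` states: separators of `s` vertices in graphs of
treewidth `k` need `n ^ Ω(s k)` states.
-/

set_option autoImplicit false

namespace Pool.Agent.Results.MP_8491f2_lc.StateBarrier

/-! ### Path and tree decompositions -/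

/-- `(T, B)` is a tree decomposition of the graph `G`: `T` is a tree, every edge of `G` lies in
some bag, and for every vertex `v` of `G` the nodes whose bags contain `v` induce a connected
(in particular nonempty) subgraph of `T`. -/
structure IsTreeDecomposition {V X : Type} (G : SimpleGraph V) (T : SimpleGraph X)
    (B : X → Finset V) : Prop where
  isTree : T.IsTree
  edge : ∀ u v, G.Adj u v → ∃ x, u ∈ B x ∧ v ∈ B x
  conn : ∀ v, (T.induce {x | v ∈ B x}).Connected

/-- The pathwidth of `G`: the least `k` such that `G` has a tree decomposition over a path all of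
whose bags have at most `k + 1` elements. -/
noncomputable def pathwidth {V : Type} (G : SimpleGraph V) : ℕ :=
  sInf {k | ∃ (m : ℕ) (B : Fin m → Finset V),
    IsTreeDecomposition G (SimpleGraph.pathGraph m) B ∧ ∀ x, (B x).card ≤ k + 1}

/-! ### Gluing along a separator -/

/-- The inclusion of the left side `S ⊕ α` into `S ⊕ (α ⊕ β)`. -/
def leftEmb (S α β : Type) : S ⊕ α ↪ S ⊕ (α ⊕ β) :=
  Function.Embedding.sumMap (Function.Embedding.refl S) Function.Embedding.inl

/-- The inclusion of the right side `S ⊕ β` into `S ⊕ (α ⊕ β)`. -/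
def rightEmb (S α β : Type) : S ⊕ β ↪ S ⊕ (α ⊕ β) :=
  Function.Embedding.sumMap (Function.Embedding.refl S) Function.Embedding.inr

/-- The graphs `A` and `B` glued along the common vertices `S`, which separate the two sides. -/
def glue {S α β : Type} (A : SimpleGraph (S ⊕ α)) (B : SimpleGraph (S ⊕ β)) :
    SimpleGraph (S ⊕ (α ⊕ β)) :=
  A.map (leftEmb S α β) ⊔ B.map (rightEmb S α β)

/-- `G` has a tree decomposition (over a finite tree) of width at most `k` in which some bag
contains the `s` separator vertices. -/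
def WidthLe {s : ℕ} {γ : Type} (k : ℕ) (G : SimpleGraph (Fin s ⊕ γ)) : Prop :=
  ∃ (X : Type) (_ : Finite X) (T : SimpleGraph X) (B : X → Finset (Fin s ⊕ γ)),
    IsTreeDecomposition G T B ∧ (∀ x, (B x).card ≤ k + 1) ∧ ∃ x, ∀ i : Fin s, Sum.inl i ∈ B x

/-! ### Methods -/

/-- A table method with states `Q` for the question `pw ≤ w`, for graphs with at most `n` vertices
glued along `s` vertices that lie in a bag of a tree decomposition of width at most `k`: every left
side `A` gets a set of states, every right side `B` gets a set of states, and the glued graph has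
pathwidth at most `w` if and only if the two sets meet.  (For a tree automaton, or an equivalence
relation of finite index that respects the question, the set of `A` is one state.) -/
structure TableMethod (n s k w : ℕ) (Q : Type) where
  left : (a : ℕ) → SimpleGraph (Fin s ⊕ Fin a) → Set Q
  right : (b : ℕ) → SimpleGraph (Fin s ⊕ Fin b) → Set Q
  correct : ∀ (a b : ℕ) (A : SimpleGraph (Fin s ⊕ Fin a)) (B : SimpleGraph (Fin s ⊕ Fin b)),
    s + a + b ≤ n → WidthLe k (glue A B) →
      (pathwidth (glue A B) ≤ w ↔ (left a A ∩ right b B).Nonempty)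

/-- A linear method of dimension `d` over the field `K`: the sides get vectors of length `d`, and
the glued graph has pathwidth at most `w` if and only if the product of the two vectors is not
zero. -/
structure LinearMethod (n s k w : ℕ) (K : Type) [Field K] (d : ℕ) where
  left : (a : ℕ) → SimpleGraph (Fin s ⊕ Fin a) → Fin d → K
  right : (b : ℕ) → SimpleGraph (Fin s ⊕ Fin b) → Fin d → K
  correct : ∀ (a b : ℕ) (A : SimpleGraph (Fin s ⊕ Fin a)) (B : SimpleGraph (Fin s ⊕ Fin b)),
    s + a + b ≤ n → WidthLe k (glue A B) →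
      (pathwidth (glue A B) ≤ w ↔ ∑ i, left a A i * right b B i ≠ 0)

/-! ### The proof -/

theorem dec_iff {V X : Type} (G : SimpleGraph V) (T : SimpleGraph X) (B : X → Finset V) :
    Work.MP_8491f2_lc.IsTreeDec G T B ↔ IsTreeDecomposition G T B :=
  ⟨fun h => ⟨h.1, h.2, h.3⟩, fun h => ⟨h.1, h.2, h.3⟩⟩

theorem pw_eq {V : Type} (G : SimpleGraph V) : Work.MP_8491f2_lc.pw G = pathwidth G := by
  unfold Work.MP_8491f2_lc.pw pathwidth Work.MP_8491f2_lc.PwLe
  simp only [dec_iff]

theorem glue_eq {S α β : Type} (A : SimpleGraph (S ⊕ α)) (B : SimpleGraph (S ⊕ β)) :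
    Work.MP_8491f2_lc.DP.glue A B = glue A B := rfl

theorem width_of {s : ℕ} {γ : Type} [Finite γ] {k l : ℕ} {G : SimpleGraph (Fin s ⊕ γ)}
    (h : Work.MP_8491f2_lc.tw G ≤ l) (hl : l + s ≤ k) : WidthLe k G := by
  obtain ⟨X, hX, T, B, h1, h2, h3⟩ := Work.MP_8491f2_lc.DP.sideLe_of_twLe G
    ((Work.MP_8491f2_lc.DP.tw_le_iff G l).1 h)
  exact ⟨X, hX, T, B, (dec_iff G T B).1 h1, fun x => (h2 x).trans (by omega), h3⟩

/-- A family of pairs of sides that fit only with each other. -/
theorem fooling (s k : ℕ) (hs : 14 ≤ s) (hk : 2 * s + 2 ≤ k) : ∃ n₀ : ℕ, ∀ n ≥ n₀,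
    ∃ w a b N : ℕ, ∃ (A : Fin N → SimpleGraph (Fin s ⊕ Fin a))
      (B : Fin N → SimpleGraph (Fin s ⊕ Fin b)),
      s + a + b ≤ n ∧ (n : ℝ) ^ ((s : ℝ) * k / 20000) ≤ N ∧
      (∀ i j, WidthLe k (glue (A i) (B j))) ∧
      ∀ i j, (pathwidth (glue (A i) (B j)) ≤ w ↔ i = j) := by
  obtain ⟨n₀, h⟩ := Work.MP_8491f2_lc.DP.fooling s (k - s) hs (by omega)
  refine ⟨max n₀ 1, fun n hn => ?_⟩
  obtain ⟨w, a, b, N, A, B, h1, h2, h3, h4⟩ := h n (le_trans (le_max_left _ _) hn)
  refine ⟨w, a, b, N, A, B, h1, le_trans ?_ h2, fun i j => ?_, fun i j => ?_⟩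
  · have hn1 : (1 : ℝ) ≤ n := by exact_mod_cast le_trans (le_max_right _ _) hn
    refine Real.rpow_le_rpow_of_exponent_le hn1 ?_
    have h5 : ((k - s : ℕ) : ℝ) = (k : ℝ) - s := by
      rw [Nat.cast_sub (by omega)]
    have h6 : 2 * (s : ℝ) + 2 ≤ k := by exact_mod_cast hk
    have h7 : (0 : ℝ) ≤ s := Nat.cast_nonneg s
    rw [h5]
    nlinarith
  · exact width_of (h3 i j) (by omega)
  · rw [← pw_eq, ← glue_eq]; exact h4 i j

theorem table_le {n s k w a b N : ℕ} {A : Fin N → SimpleGraph (Fin s ⊕ Fin a)}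
    {B : Fin N → SimpleGraph (Fin s ⊕ Fin b)} (h1 : s + a + b ≤ n)
    (h3 : ∀ i j, WidthLe k (glue (A i) (B j)))
    (h4 : ∀ i j, (pathwidth (glue (A i) (B j)) ≤ w ↔ i = j)) {Q : Type} (hQ : Finite Q)
    (M : TableMethod n s k w Q) : N ≤ Nat.card Q := by
  have hex : ∀ i, ∃ q, q ∈ M.left a (A i) ∩ M.right b (B i) := fun i =>
    (M.correct a b (A i) (B i) h1 (h3 i i)).1 ((h4 i i).2 rfl)
  choose q hq using hex
  have hinj : Function.Injective q := by
    intro i j hij
    rw [← h4 i j, M.correct a b (A i) (B j) h1 (h3 i j)]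
    exact ⟨q i, (hq i).1, by rw [hij]; exact (hq j).2⟩
  have h := Nat.card_le_card_of_injective q hinj
  rwa [Nat.card_eq_fintype_card, Fintype.card_fin] at h

theorem linear_le {n s k w a b N : ℕ} {A : Fin N → SimpleGraph (Fin s ⊕ Fin a)}
    {B : Fin N → SimpleGraph (Fin s ⊕ Fin b)} (h1 : s + a + b ≤ n)
    (h3 : ∀ i j, WidthLe k (glue (A i) (B j)))
    (h4 : ∀ i j, (pathwidth (glue (A i) (B j)) ≤ w ↔ i = j)) {K : Type} [Field K] {d : ℕ}
    (M : LinearMethod n s k w K d) : N ≤ d := by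
  have hd : ∀ i j, ∑ l, M.left a (A i) l * M.right b (B j) l ≠ 0 ↔ i = j := fun i j => by
    rw [← h4 i j, M.correct a b (A i) (B j) h1 (h3 i j)]
  have hli : LinearIndependent K fun i => M.left a (A i) := by
    rw [Fintype.linearIndependent_iff]
    intro g hg j
    have h5 : ∑ l, (∑ i, g i • M.left a (A i)) l * M.right b (B j) l = 0 := by
      rw [hg]; simp
    have h6 : ∑ l, (∑ i, g i • M.left a (A i)) l * M.right b (B j) l =
        ∑ i, g i * ∑ l, M.left a (A i) l * M.right b (B j) l := by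
      simp only [Finset.sum_apply, Pi.smul_apply, smul_eq_mul, Finset.sum_mul, Finset.mul_sum]
      rw [Finset.sum_comm]
      refine Finset.sum_congr rfl fun i _ => Finset.sum_congr rfl fun l _ => ?_
      ring
    rw [h6, Finset.sum_eq_single j] at h5
    · rcases mul_eq_zero.1 h5 with h7 | h7
      · exact h7
      · exact absurd h7 ((hd j j).2 rfl)
    · intro i _ hij
      by_contra h8
      apply hij
      rw [← hd i j]
      exact fun h9 => h8 (by rw [h9, mul_zero])
    · intro h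
      exact absurd (Finset.mem_univ j) h
  have h := hli.fintype_card_le_finrank
  rwa [Fintype.card_fin, Module.finrank_fin_fun] at h

/-- The exponents for `s = 14` grow with `k`. -/
theorem count3 (f : ℕ → ℕ) (d : ℕ) : ∃ k : ℕ, 2 * 14 + 2 ≤ k ∧ ∃ n₁ : ℕ, ∀ n ≥ n₁,
    ((f k * (n + 1) ^ d : ℕ) : ℝ) < (n : ℝ) ^ (((14 : ℕ) : ℝ) * k / 20000) := by
  obtain ⟨k, hk, n₁, h⟩ := Work.MP_8491f2_lc.DP.countB2 (fun j => f (2 * j)) d
  refine ⟨2 * k, by omega, max n₁ 1, fun n hn => ?_⟩
  have h1 := h n (le_trans (le_max_left _ _) hn)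
  have hn1 : (1 : ℝ) ≤ n := by exact_mod_cast le_trans (le_max_right _ _) hn
  refine lt_of_lt_of_le h1 (Real.rpow_le_rpow_of_exponent_le hn1 ?_)
  have h2 : (0 : ℝ) ≤ k := Nat.cast_nonneg k
  push_cast
  linarith

/-- **Dynamic programming with few states does not decide pathwidth.** For `s ≥ 14`, `k ≥ 2 s + 2`
and all large `n` there is a `w` such that every table method has at least `n ^ (s k / 20000)`
states, and every linear method, over any field, has at least this dimension.  In particular there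
are no table methods with `f(k) (n + 1)^c` states and no linear methods of dimension
`f(k) (n + 1)^c`, already for separators of 14 vertices. -/
theorem result :
    (∀ s k : ℕ, 14 ≤ s → 2 * s + 2 ≤ k → ∃ n₀ : ℕ, ∀ n ≥ n₀, ∃ w : ℕ,
      (∀ (Q : Type) (_ : Finite Q), TableMethod n s k w Q →
        (n : ℝ) ^ ((s : ℝ) * k / 20000) ≤ Nat.card Q) ∧
      (∀ (K : Type) (_ : Field K) (d : ℕ), LinearMethod n s k w K d →
        (n : ℝ) ^ ((s : ℝ) * k / 20000) ≤ d)) ∧
    (¬ ∃ (f : ℕ → ℕ) (c : ℕ), ∀ n k w : ℕ,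
      (∃ (Q : Type) (_ : Finite Q), Nonempty (TableMethod n 14 k w Q) ∧
        Nat.card Q ≤ f k * (n + 1) ^ c) ∨
      (∃ (K : Type) (_ : Field K) (d : ℕ), Nonempty (LinearMethod n 14 k w K d) ∧
        d ≤ f k * (n + 1) ^ c)) := by
  have main : ∀ s k : ℕ, 14 ≤ s → 2 * s + 2 ≤ k → ∃ n₀ : ℕ, ∀ n ≥ n₀, ∃ w : ℕ,
      (∀ (Q : Type) (_ : Finite Q), TableMethod n s k w Q →
        (n : ℝ) ^ ((s : ℝ) * k / 20000) ≤ Nat.card Q) ∧
      (∀ (K : Type) (_ : Field K) (d : ℕ), LinearMethod n s k w K d →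
        (n : ℝ) ^ ((s : ℝ) * k / 20000) ≤ d) := by
    intro s k hs hk
    obtain ⟨n₀, h⟩ := fooling s k hs hk
    refine ⟨n₀, fun n hn => ?_⟩
    obtain ⟨w, a, b, N, A, B, h1, h2, h3, h4⟩ := h n hn
    refine ⟨w, fun Q hQ M => ?_, fun K _ d M => ?_⟩
    · exact h2.trans (by exact_mod_cast table_le h1 h3 h4 hQ M)
    · exact h2.trans (by exact_mod_cast linear_le h1 h3 h4 M)
  refine ⟨main, ?_⟩
  rintro ⟨f, c, h⟩
  obtain ⟨k, hk, n₁, h5⟩ := count3 f c
  obtain ⟨n₀, h6⟩ := main 14 k le_rfl hk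
  obtain ⟨w, h7, h7'⟩ := h6 (max n₀ n₁) (le_max_left _ _)
  have h10 := h5 (max n₀ n₁) (le_max_right _ _)
  rcases h (max n₀ n₁) k w with ⟨Q, hQ, ⟨M⟩, h8⟩ | ⟨K, hK, d, ⟨M⟩, h8⟩
  · have h9 := h7 Q hQ M
    have h11 : (Nat.card Q : ℝ) ≤ ((f k * (max n₀ n₁ + 1) ^ c : ℕ) : ℝ) := by exact_mod_cast h8
    exact absurd (h9.trans h11) (not_le.2 h10)
  · have h9 := h7' K hK d M
    have h11 : (d : ℝ) ≤ ((f k * (max n₀ n₁ + 1) ^ c : ℕ) : ℝ) := by exact_mod_cast h8
    exact absurd (h9.trans h11) (not_le.2 h10)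

end Pool.Agent.Results.MP_8491f2_lc.StateBarrier
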