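import Pool.Agent.Work.MP_8491f2_lc.DP.CompB
import Pool.Agent.Work.MP_8491f2_lc.DP.CountB
import Pool.Agent.Work.MP_8491f2_lc.DP.Bag

/-!
Unconditional: there is one graph `A` with a separator of at most `k` vertices for which every
table of partial path decompositions that suffices to decide pathwidth for all gluings of treewidth
at most `k` has `n ^ Ω(k)` entries.
-/

set_option autoImplicit false

namespace Pool.Agent.Results.MP_8491f2_lc.TableBarrier

/-! ### Path and tree decompositions -/

/-- `(T, B)` is a tree decomposition of the graph `G`: `T` is a tree, every edge of `G` lies in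
some bag, and for every vertex `v` of `G` the nodes whose bags contain `v` induce a connected
(in particular nonempty) subgraph of `T`. -/
structure IsTreeDecomposition {V X : Type} (G : SimpleGraph V) (T : SimpleGraph X)
    (B : X → Finset V) : Prop where
  isTree : T.IsTree
  edge : ∀ u v, G.Adj u v → ∃ x, u ∈ B x ∧ v ∈ B x
  conn : ∀ v, (T.induce {x | v ∈ B x}).Connected

/-- The pathwidth of `G`: the least `k` such that `G` has a tree decomposition over a path all of
whose bags have at most `k + 1` elements. -/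
noncomputable def pathwidth {V : Type} (G : SimpleGraph V) : ℕ :=
  sInf {k | ∃ (m : ℕ) (B : Fin m → Finset V),
    IsTreeDecomposition G (SimpleGraph.pathGraph m) B ∧ ∀ x, (B x).card ≤ k + 1}

/-- The list of bags `L` is a path decomposition of `G` of width at most `w`. -/
def IsPathDecomposition {V : Type} (G : SimpleGraph V) (w : ℕ) (L : List (Finset V)) : Prop :=
  IsTreeDecomposition G (SimpleGraph.pathGraph L.length) (fun i => L.get i) ∧
    ∀ b ∈ L, b.card ≤ w + 1

/-! ### Gluing along a separator -/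

/-- The inclusion of the left side `S ⊕ α` into `S ⊕ (α ⊕ β)`. -/
def leftEmb (S α β : Type) : S ⊕ α ↪ S ⊕ (α ⊕ β) :=
  Function.Embedding.sumMap (Function.Embedding.refl S) Function.Embedding.inl

/-- The inclusion of the right side `S ⊕ β` into `S ⊕ (α ⊕ β)`. -/
def rightEmb (S α β : Type) : S ⊕ β ↪ S ⊕ (α ⊕ β) :=
  Function.Embedding.sumMap (Function.Embedding.refl S) Function.Embedding.inr

/-- The graphs `A` and `B` glued along the common vertices `S`, which separate the two sides. -/
def glue {S α β : Type} (A : SimpleGraph (S ⊕ α)) (B : SimpleGraph (S ⊕ β)) :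
    SimpleGraph (S ⊕ (α ⊕ β)) :=
  A.map (leftEmb S α β) ⊔ B.map (rightEmb S α β)

/-- `G` has a tree decomposition (over a finite tree) of width at most `k` in which some bag
contains the `s` separator vertices. -/
def WidthLe {s : ℕ} {γ : Type} (k : ℕ) (G : SimpleGraph (Fin s ⊕ γ)) : Prop :=
  ∃ (X : Type) (_ : Finite X) (T : SimpleGraph X) (B : X → Finset (Fin s ⊕ γ)),
    IsTreeDecomposition G T B ∧ (∀ x, (B x).card ≤ k + 1) ∧ ∃ x, ∀ i : Fin s, Sum.inl i ∈ B x

/-! ### Tables of partial solutions -/

open Classical in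
/-- The partial solution (trace) that a sequence of bags leaves on the left side: the bags are
intersected with the left side and consecutive repetitions are removed. -/
noncomputable def trace {S α β : Type} (L : List (Finset (S ⊕ (α ⊕ β)))) :
    List (Finset (S ⊕ α)) :=
  (L.map fun b => b.preimage (leftEmb S α β) (leftEmb S α β).injective.injOn).destutter (· ≠ ·)

/-- `R` is a sufficient table for the left side `A`: whenever the gluing of `A` with a right side
`B` (at most `n` vertices, separator in a bag of a tree decomposition of width at most `k`) has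
pathwidth at most `w`, some path decomposition of the glued graph of width at most `w` has its
partial solution in `R`.  (If partial solutions that extend to the same right sides are identified,
one representative for every class is sufficient.) -/
def Sufficient (n k w : ℕ) {s a : ℕ} (A : SimpleGraph (Fin s ⊕ Fin a))
    (R : Set (List (Finset (Fin s ⊕ Fin a)))) : Prop :=
  ∀ (b : ℕ) (B : SimpleGraph (Fin s ⊕ Fin b)), s + a + b ≤ n → WidthLe k (glue A B) →
    pathwidth (glue A B) ≤ w → ∃ L, IsPathDecomposition (glue A B) w L ∧ trace L ∈ R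

/-! ### The proof -/

theorem dec_iff {V X : Type} (G : SimpleGraph V) (T : SimpleGraph X) (B : X → Finset V) :
    Work.MP_8491f2_lc.IsTreeDec G T B ↔ IsTreeDecomposition G T B :=
  ⟨fun h => ⟨h.1, h.2, h.3⟩, fun h => ⟨h.1, h.2, h.3⟩⟩

theorem pw_eq {V : Type} (G : SimpleGraph V) : Work.MP_8491f2_lc.pw G = pathwidth G := by
  unfold Work.MP_8491f2_lc.pw pathwidth Work.MP_8491f2_lc.PwLe
  simp only [dec_iff]

theorem glue_eq {S α β : Type} (A : SimpleGraph (S ⊕ α)) (B : SimpleGraph (S ⊕ β)) :
    Work.MP_8491f2_lc.DP.glue A B = glue A B := rfl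

theorem width_of {s : ℕ} {γ : Type} [Finite γ] {k l : ℕ} {G : SimpleGraph (Fin s ⊕ γ)}
    (h : Work.MP_8491f2_lc.tw G ≤ l) (hl : l + s ≤ k) : WidthLe k G := by
  obtain ⟨X, hX, T, B, h1, h2, h3⟩ := Work.MP_8491f2_lc.DP.sideLe_of_twLe G
    ((Work.MP_8491f2_lc.DP.tw_le_iff G l).1 h)
  exact ⟨X, hX, T, B, (dec_iff G T B).1 h1, fun x => (h2 x).trans (by omega), h3⟩

/-- A left side all of whose sufficient tables are large. -/
theorem one_side (k : ℕ) (hk : 22 ≤ k) : ∃ n₀ : ℕ, ∀ n ≥ n₀,
    ∃ s w a : ℕ, ∃ A : SimpleGraph (Fin s ⊕ Fin a), s ≤ k ∧ s + a ≤ n ∧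
      ∀ R : Set (List (Finset (Fin s ⊕ Fin a))), R.Finite → Sufficient n k w A R →
        (n : ℝ) ^ ((k : ℝ) / 1000) ≤ R.ncard := by
  obtain ⟨n₀, h⟩ := Work.MP_8491f2_lc.DP.countB k hk
  refine ⟨n₀, fun n hn => ?_⟩
  obtain ⟨m, hm, h1, h2⟩ := h n hn
  obtain ⟨m', rfl⟩ : ∃ m', m = m' + 1 := ⟨m - 1, by omega⟩
  have hκ : 6 ≤ (k + 2) / 4 := by omega
  obtain ⟨a, b, A, B, ori, h3, h4, h5, h6⟩ :=
    Work.MP_8491f2_lc.DP.compB (κ := (k + 2) / 4) hκ (m' + 1)
  refine ⟨(k + 2) / 4, 27 * (m' + 1 + 5) + 2 * ((k + 2) / 4) + 11, a, A, by omega, by omega,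
    fun R hR hS => h2.trans ?_⟩
  -- a partial solution for every `x` with `x 0 = true`
  have hex : ∀ y : Fin m' → Bool, ∃ L, IsPathDecomposition
      (glue A (B (Fin.cons true y))) (27 * (m' + 1 + 5) + 2 * ((k + 2) / 4) + 11) L ∧
      trace L ∈ R := by
    intro y
    refine hS b (B (Fin.cons true y)) (by omega) ?_ ?_
    · exact width_of ((Work.MP_8491f2_lc.DP.tw_le_iff _ _).2 (h4 (Fin.cons true y))) (by omega)
    · rw [← pw_eq]
      exact (Work.MP_8491f2_lc.DP.pw_le_iff _ _).2 (h5 (Fin.cons true y))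
  choose L hL1 hL2 using hex
  have hinj : Function.Injective fun y : Fin m' → Bool => trace (L y) := by
    intro y y' hyy
    have key : ∀ y : Fin m' → Bool, ori (trace (L y)) = Fin.cons true y ∨
        ori (trace (L y)) = fun g => !(Fin.cons true y : Fin (m' + 1) → Bool) g := by
      intro y
      refine h6 (Fin.cons true y) (L y) ⟨(dec_iff _ _ _).2 (hL1 y).1, (hL1 y).2⟩
    have hyy' : trace (L y) = trace (L y') := hyy
    have e1 := key y
    have e2 := key y'
    rw [← hyy'] at e2
    have h0 : ∀ z : Fin m' → Bool, (Fin.cons true z : Fin (m' + 1) → Bool) 0 = true :=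
      fun z => rfl
    have hx : (Fin.cons true y : Fin (m' + 1) → Bool) = Fin.cons true y' := by
      rcases e1 with e1 | e1 <;> rcases e2 with e2 | e2
      · rw [← e1, ← e2]
      · exfalso
        have h7 := congrFun (e1.symm.trans e2) 0
        rw [h0] at h7
        simp at h7
      · exfalso
        have h7 := congrFun (e1.symm.trans e2) 0
        rw [h0] at h7
        simp at h7
      · have h8 := e1.symm.trans e2
        funext g
        have h9 := congrFun h8 g
        simpa using h9
    exact (Fin.cons_right_injective (α := fun _ => Bool) true) hx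
  have hcard : 2 ^ m' ≤ R.ncard := by
    have h7 : Nat.card (Fin m' → Bool) ≤ Nat.card R := by
      haveI := hR.to_subtype
      exact Nat.card_le_card_of_injective (fun y => (⟨trace (L y), hL2 y⟩ : R))
        (fun y y' hyy => hinj (congrArg Subtype.val hyy))
    rw [Nat.card_eq_fintype_card, Fintype.card_fun, Fintype.card_fin, Fintype.card_bool] at h7
    exact h7
  have h8 : m' + 1 - 1 = m' := by omega
  rw [h8]
  exact_mod_cast hcard

/-- **Tables of partial path decompositions are not of FPT size.** For `k ≥ 22` and all large `n`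
there are `w`, `s ≤ k` and one left side `A` with `s` separator vertices for which every sufficient
table of partial solutions has at least `n ^ (k / 1000)` entries.  In particular sufficient tables
with `f(k) (n + 1)^c` entries do not exist in general. -/
theorem result :
    (∀ k : ℕ, 22 ≤ k → ∃ n₀ : ℕ, ∀ n ≥ n₀, ∃ s w a : ℕ, ∃ A : SimpleGraph (Fin s ⊕ Fin a),
      s ≤ k ∧ s + a ≤ n ∧ ∀ R : Set (List (Finset (Fin s ⊕ Fin a))), R.Finite →
        Sufficient n k w A R → (n : ℝ) ^ ((k : ℝ) / 1000) ≤ R.ncard) ∧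
    (¬ ∃ (f : ℕ → ℕ) (c : ℕ), ∀ (n k w s a : ℕ) (A : SimpleGraph (Fin s ⊕ Fin a)),
      s ≤ k → s + a ≤ n → ∃ R : Set (List (Finset (Fin s ⊕ Fin a))),
        R.Finite ∧ Sufficient n k w A R ∧ R.ncard ≤ f k * (n + 1) ^ c) := by
  refine ⟨one_side, ?_⟩
  rintro ⟨f, c, h⟩
  obtain ⟨k, hk, n₁, h5⟩ := Work.MP_8491f2_lc.DP.countB2 f c
  obtain ⟨n₀, h6⟩ := one_side k hk
  obtain ⟨s, w, a, A, h7, h7', h8⟩ := h6 (max n₀ n₁) (le_max_left _ _)
  obtain ⟨R, hR, hS, h9⟩ := h (max n₀ n₁) k w s a A h7 h7'
  have h10 := h8 R hR hS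
  have h11 := h5 (max n₀ n₁) (le_max_right _ _)
  have h12 : (R.ncard : ℝ) ≤ ((f k * (max n₀ n₁ + 1) ^ c : ℕ) : ℝ) := by exact_mod_cast h9
  exact absurd (h10.trans h12) (not_le.2 h11)

end Pool.Agent.Results.MP_8491f2_lc.TableBarrier
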